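import Pool.Agent.Helper50.EX.StmP

/-!
# Project EX, package RBP: regular models of the quotient in terms of the basic data
-/

set_option autoImplicit false
set_option linter.unusedSectionVars false

namespace Pool.Agent.Helper93.EX.RP

open Finset Pool.Agent.W559.Mg Cardinal Pool.Agent.Helper46.AQ Pool.Agent.Helper49.PN
  Pool.Agent.Helper49.PQ Pool.Agent.Helper50.EX

section main

variable {k K : Type} [Field k] [Field K] [Algebra k K] [DecidableEq K] {G : Type} [Group G]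
  {ρ : G →* (K ≃ₐ[k] K)} {B : Subalgebra k K} {Φ : Finset K}
  {ι : Type} [Fintype ι] [DecidableEq ι] {A B' : ι → Finset K} {Ex : ι → ι → Prop}
  {N : ℕ → ι → ℕ} {L : Type} [AddCommGroup L] {dg : L ≃+ (ι → ℤ)}
  {n : ℕ} (hb : Pool.Agent.Helper49.PQ.Base ρ B Φ n)
  (hS : Pool.Agent.Helper49.PQ.Sys ρ B Φ A B' Ex N)
  (hcmp : ∀ q : ℕ × ℕ × ℕ × ℕ, q.1 < Φ.card → q.2.1 < Φ.card → q.2.2.1 < Φ.card →
      q.2.2.2 < Φ.card → Pool.Agent.Helper49.PQ.Cmp Ex (Pool.Agent.Helper49.PQ.dq N q))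
  (D : Pool.Agent.Helper49.PQ.Tp Φ A B')

include hb hcmp in
/-- The invariants of the charts are smooth. -/
theorem smooth_inv (hDESC : S_DESC) (hCh : Pool.Agent.Helper50.EX.P.S_ChP)
    [IsDomain (ML K L)] [Finite G] {p : ℕ} [hp : Fact p.Prime] [CharP k p] [PerfectField k]
    (hG : ∀ I : Subgroup G, IsPGroup p I → ExpOn ρ Φ p I)
    (hinj : ∀ γ, ρ γ = 1 → γ = 1) :
    Algebra.Smooth k ↥(CC dg hS.pc D ⊓ Fx ρ L) := by
  have hsm := smooth_CC (dg := dg) hb hS D
  have hreg := regular_CC (dg := dg) hb hS D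
  let ρ' := rC hb hS.pc D dg
  let C := CC dg hS.pc D
  let A' : Subalgebra k (ML K L) := C ⊓ Fx ρ L
  have hle : A' ≤ C := inf_le_left
  let _ : Algebra A' C := (Subalgebra.inclusion hle).toRingHom.toAlgebra
  have _ : IsScalarTower k A' C := IsScalarTower.of_algebraMap_eq fun r => rfl
  have hcoe : ∀ a : A', ((algebraMap A' C a : C) : ML K L) = a := fun a => rfl
  have hinjA : Function.Injective (algebraMap A' C) := fun a b hab => by
    apply Subtype.ext
    rw [← hcoe a, ← hcoe b, hab]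
  have hFx : ∀ f : ML K L, f ∈ Fx ρ L ↔ ∀ g, ga ρ L g f = f := by
    intro f
    constructor
    · intro hf g
      refine ml_ext fun m => ?_
      rw [ga_coeff]
      exact hf g m
    · intro hf g m
      have h1 := congrArg (fun f => AddMonoidAlgebra.coeff f m) (hf g)
      have h2 : (ga ρ L g f).coeff m = f.coeff m := h1
      rwa [ga_coeff] at h2
  have hinv : ∀ x : C, (∀ g, ρ' g x = x) ↔ ∃ a : A', algebraMap A' C a = x := by
    intro x
    constructor
    · intro hx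
      exact ⟨⟨x, x.2, (hFx _).2 fun g => congrArg Subtype.val (hx g)⟩, rfl⟩
    · rintro ⟨a, rfl⟩ g
      exact Subtype.ext ((hFx _).1 a.2.2 g)
  have hftC : Algebra.FiniteType k C := inferInstance
  have hft : Algebra.FiniteType k A' := ft_inv hinjA ρ' fun x hx => (hinv x).1 hx
  have hnA : IsNoetherianRing A' := Algebra.FiniteType.isNoetherianRing k A'
  have hcharC : CharP C p :=
    charP_of_injective_algebraMap (algebraMap k C).injective p
  have hregA : IsRegularRing A' :=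
    hDESC C G ρ' p A' (algebraMap A' C) hinjA hinv fun Q hQ =>
      hCh p k K G ρ B Φ ι A B' Ex N L dg n hb hS hcmp hinj D Q hQ fun h => hG _ h
  exact Pool.Agent.N864.GT.smooth_of_regular

end main

/-- RBP from DESC and ChP. -/
theorem rbp (hDESC : S_DESC) (hCh : Pool.Agent.Helper50.EX.P.S_ChP) :
    Pool.Agent.Helper50.EX.P.S_RBP := by
  intro p _ k K _ _ _ _ _ _ G _ _ ρ B Φ K0 F t n hb hG hinj h ht
  obtain ⟨X, hX⟩ := Pool.Agent.Helper49.PQ.exists_SY hb.fam
  let _ := X.fi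
  let _ := X.di
  obtain ⟨L, _, dg, hNR⟩ := exists_nr X.ι
  have hTU := hNR.1
  have : IsDomain (ML K L) := NoZeroDivisors.to_isDomain _
  obtain ⟨d1, τ, h1, h2, h3, h4, h5⟩ := exists_tau (dg := dg) X.sys h ht
  have hτ : Tau ρ dg K0 t X.sys.pc d1 τ := ⟨h1, h2, h3, h4, h5⟩
  obtain ⟨D0, -⟩ := X.sys.pc.exists_chart (1 : Valuation K (WithZero (Multiplicative ℤ)))
  have hpf := pf_CF (dg := dg) hb X.sys h hτ ht D0
  have hmf : MF (k := k) (K := F) (EE Φ X.A X.B') (CF F X.sys hτ)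
      (fun D => ⟨HH D / HH D0, ratio_F X.sys h ht D0 D⟩) :=
    ⟨hpf, fun D => smooth_CF hb X.sys h hτ ht D (smooth_inv hb X.sys hX D hDESC hCh hG hinj)⟩
  exact (nr_prod hNR).2 k F _ _ _ _ hmf

end Pool.Agent.Helper93.EX.RP
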